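import Pool.Agent.Helper39.P5.Exist

/-!
# The circumscribed parallelogram of minimal area (MP_8bf717_co)

Every plane convex body has an affine image `K` in the unit square such that every circumscribed
parallelogram of `K` has area at least `1`; then `K` contains points `(c, 0), (c, 1)` and
`(0, d), (1, d)`.
-/

set_option autoImplicit false

open MeasureTheory Set

namespace Pool.Agent.Helper39.MP

open Pool.Agent.Helper27.PHU Pool.Agent.Helper37.PH Pool.Agent.Helper61.PH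

theorem dt_eq (p q : ℝ × ℝ) : dt p q = p.1 * q.1 + p.2 * q.2 := rfl

theorem cr_eq (p q : ℝ × ℝ) : cr p q = p.1 * q.2 - p.2 * q.1 := rfl

/-- the functional `n` varies by at most `w` on `K` -/
def Wd (K : Set (ℝ × ℝ)) (n : ℝ × ℝ) (w : ℝ) : Prop := ∀ p ∈ K, ∀ q ∈ K, dt n (p - q) ≤ w

/-- the polar of the difference body -/
def Pol (K : Set (ℝ × ℝ)) : Set (ℝ × ℝ) := {m | Wd K m 1}

/-- every circumscribed parallelogram has area at least `1`: the area of the parallelogram cut out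
by the two strips with normals `n1`, `n2` is `w1 * w2 / |cr n1 n2|`. -/
def MinPar (K : Set (ℝ × ℝ)) : Prop :=
  ∀ (n1 n2 : ℝ × ℝ) (w1 w2 : ℝ), Wd K n1 w1 → Wd K n2 w2 → |cr n1 n2| ≤ w1 * w2

/-- the frame of the minimal circumscribed parallelogram -/
structure MPar (K : Set (ℝ × ℝ)) (c d : ℝ) : Prop where
  body : IsBody K
  x0 : ∀ z ∈ K, 0 ≤ z.1
  x1 : ∀ z ∈ K, z.1 ≤ 1
  y0 : ∀ z ∈ K, 0 ≤ z.2
  y1 : ∀ z ∈ K, z.2 ≤ 1
  mB : (c, (0 : ℝ)) ∈ K
  mT : (c, (1 : ℝ)) ∈ K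
  mL : ((0 : ℝ), d) ∈ K
  mR : ((1 : ℝ), d) ∈ K
  mini : MinPar K

theorem Wd.nonneg {K : Set (ℝ × ℝ)} (hK : K.Nonempty) {n : ℝ × ℝ} {w : ℝ} (h : Wd K n w) :
    0 ≤ w := by
  obtain ⟨p, hp⟩ := hK
  have := h p hp p hp
  simpa [dt_eq] using this

/-- a small cross inside a body -/
theorem exists_cross {K : Set (ℝ × ℝ)} (hK : IsBody K) : ∃ (x : ℝ × ℝ) (ε : ℝ), 0 < ε ∧ x ∈ K ∧
    (x.1 + ε, x.2) ∈ K ∧ (x.1 - ε, x.2) ∈ K ∧ (x.1, x.2 + ε) ∈ K ∧ (x.1, x.2 - ε) ∈ K := by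
  obtain ⟨x, hx⟩ := hK.interior_nonempty
  obtain ⟨ε, hε, hball⟩ := Metric.mem_nhds_iff.1 (isOpen_interior.mem_nhds hx)
  have key : ∀ a b : ℝ, |a| < ε → |b| < ε → (x.1 + a, x.2 + b) ∈ K := by
    intro a b ha hb
    apply interior_subset
    apply hball
    rw [Metric.mem_ball, Prod.dist_eq, max_lt_iff]
    refine ⟨?_, ?_⟩
    · show dist (x.1 + a) x.1 < ε
      rw [Real.dist_eq, add_sub_cancel_left]; exact ha
    · show dist (x.2 + b) x.2 < ε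
      rw [Real.dist_eq, add_sub_cancel_left]; exact hb
  have h2 : |ε / 2| < ε := by rw [abs_of_pos (by linarith)]; linarith
  have h3 : |-(ε / 2)| < ε := by rw [abs_neg]; exact h2
  have h0 : |(0 : ℝ)| < ε := by rw [abs_zero]; exact hε
  refine ⟨x, ε / 2, by linarith, interior_subset hx, ?_, ?_, ?_, ?_⟩
  · simpa using key (ε / 2) 0 h2 h0
  · simpa [sub_eq_add_neg] using key (-(ε / 2)) 0 h3 h0
  · simpa using key 0 (ε / 2) h0 h2
  · simpa [sub_eq_add_neg] using key 0 (-(ε / 2)) h0 h3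

/-- a width bound controls the functional -/
theorem Wd.bound {K : Set (ℝ × ℝ)} {x : ℝ × ℝ} {ε : ℝ}
    (h1 : (x.1 + ε, x.2) ∈ K) (h2 : (x.1 - ε, x.2) ∈ K) (h3 : (x.1, x.2 + ε) ∈ K)
    (h4 : (x.1, x.2 - ε) ∈ K) {n : ℝ × ℝ} {w : ℝ} (h : Wd K n w) :
    2 * ε * |n.1| ≤ w ∧ 2 * ε * |n.2| ≤ w := by
  have g1 := h _ h1 _ h2
  have g2 := h _ h2 _ h1
  have g3 := h _ h3 _ h4
  have g4 := h _ h4 _ h3
  simp only [dt_eq, Prod.fst_sub, Prod.snd_sub] at g1 g2 g3 g4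
  constructor
  · rcases abs_cases n.1 with ⟨e, -⟩ | ⟨e, -⟩ <;> rw [e] <;> linarith
  · rcases abs_cases n.2 with ⟨e, -⟩ | ⟨e, -⟩ <;> rw [e] <;> linarith

theorem isCompact_Pol {K : Set (ℝ × ℝ)} (hK : IsBody K) : IsCompact (Pol K) := by
  obtain ⟨x, ε, hε, -, h1, h2, h3, h4⟩ := exists_cross hK
  have hclosed : IsClosed (Pol K) := by
    have e : Pol K = ⋂ p ∈ K, ⋂ q ∈ K, {m | dt m (p - q) ≤ 1} := by
      ext m
      simp only [Pol, Wd, mem_iInter, mem_ofPred_eq]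
    rw [e]
    refine isClosed_biInter fun p _ => isClosed_biInter fun q _ => ?_
    apply isClosed_le _ continuous_const
    unfold dt
    fun_prop
  refine IsCompact.of_isClosed_subset
    (isCompact_Icc.prod isCompact_Icc : IsCompact (Icc (-(1 / (2 * ε))) (1 / (2 * ε)) ×ˢ
      Icc (-(1 / (2 * ε))) (1 / (2 * ε)))) hclosed ?_
  intro m hm
  obtain ⟨b1, b2⟩ := Wd.bound h1 h2 h3 h4 hm
  have c1 : |m.1| ≤ 1 / (2 * ε) := by
    rw [le_div_iff₀ (by positivity)]; linarith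
  have c2 : |m.2| ≤ 1 / (2 * ε) := by
    rw [le_div_iff₀ (by positivity)]; linarith
  exact ⟨abs_le.1 c1, abs_le.1 c2⟩

theorem smul_mem_Pol {K : Set (ℝ × ℝ)} {n : ℝ × ℝ} {w : ℝ} (hw : 0 < w) (h : Wd K n w) :
    (1 / w) • n ∈ Pol K := by
  intro p hp q hq
  have := h p hp q hq
  have e : dt ((1 / w) • n) (p - q) = dt n (p - q) / w := by
    simp only [dt_eq, Prod.smul_fst, Prod.smul_snd, smul_eq_mul]
    ring
  rw [e, div_le_one hw]
  exact this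

theorem exists_maxPol {K : Set (ℝ × ℝ)} (hK : IsBody K) : ∃ m1 ∈ Pol K, ∃ m2 ∈ Pol K,
    0 < cr m1 m2 ∧ ∀ n1 ∈ Pol K, ∀ n2 ∈ Pol K, cr n1 n2 ≤ cr m1 m2 := by
  have hc := isCompact_Pol hK
  have h0 : (0 : ℝ × ℝ) ∈ Pol K := by
    intro p _ q _
    simp [dt_eq]
  have hcont : Continuous fun z : (ℝ × ℝ) × (ℝ × ℝ) => cr z.1 z.2 := by
    unfold cr
    fun_prop
  obtain ⟨z, hz, hmax⟩ := (hc.prod hc).exists_isMaxOn ⟨(0, 0), h0, h0⟩ hcont.continuousOn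
  have hall : ∀ n1 ∈ Pol K, ∀ n2 ∈ Pol K, cr n1 n2 ≤ cr z.1 z.2 := by
    intro n1 h1 n2 h2
    exact hmax (show (n1, n2) ∈ Pol K ×ˢ Pol K from ⟨h1, h2⟩)
  refine ⟨z.1, hz.1, z.2, hz.2, ?_, hall⟩
  -- positivity
  obtain ⟨R, hR⟩ := hK.compact.isBounded.subset_closedBall (0 : ℝ × ℝ)
  have hb : ∀ p ∈ K, |p.1| ≤ R ∧ |p.2| ≤ R := by
    intro p hp
    have := hR hp
    rw [Metric.mem_closedBall, dist_zero_right, Prod.norm_def, max_le_iff] at this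
    exact this
  obtain ⟨x, hx⟩ := hK.interior_nonempty
  have hR0 : 0 ≤ R := (abs_nonneg _).trans (hb x (interior_subset hx)).1
  set w : ℝ := 2 * R + 1 with hw
  have hw0 : 0 < w := by linarith
  have k1 : Wd K (1, 0) w := by
    intro p hp q hq
    have h1 := abs_le.1 (hb p hp).1
    have h2 := abs_le.1 (hb q hq).1
    simp only [dt_eq, Prod.fst_sub, Prod.snd_sub]
    linarith
  have k2 : Wd K (0, 1) w := by
    intro p hp q hq
    have h1 := abs_le.1 (hb p hp).2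
    have h2 := abs_le.1 (hb q hq).2
    simp only [dt_eq, Prod.fst_sub, Prod.snd_sub]
    linarith
  have := hall _ (smul_mem_Pol hw0 k1) _ (smul_mem_Pol hw0 k2)
  refine lt_of_lt_of_le ?_ this
  simp only [cr_eq, Prod.smul_fst, Prod.smul_snd, smul_eq_mul, mul_one, mul_zero, sub_zero]
  positivity

theorem Wd.cr_le {K : Set (ℝ × ℝ)} (hK : IsBody K) {M : ℝ} (hM : 0 ≤ M)
    (hall : ∀ n1 ∈ Pol K, ∀ n2 ∈ Pol K, cr n1 n2 ≤ M) {n1 n2 : ℝ × ℝ} {w1 w2 : ℝ}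
    (h1 : Wd K n1 w1) (h2 : Wd K n2 w2) : |cr n1 n2| ≤ M * (w1 * w2) := by
  have hne : K.Nonempty := hK.interior_nonempty.mono interior_subset
  have g1 := h1.nonneg hne
  have g2 := h2.nonneg hne
  obtain ⟨x, ε, hε, -, k1, k2, k3, k4⟩ := exists_cross hK
  have zero : ∀ {n : ℝ × ℝ}, Wd K n 0 → n = 0 := by
    intro n hn
    obtain ⟨b1, b2⟩ := Wd.bound k1 k2 k3 k4 hn
    have c1 : |n.1| ≤ 0 := by
      by_contra hc; push Not at hc
      have := mul_pos hε hc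
      linarith
    have c2 : |n.2| ≤ 0 := by
      by_contra hc; push Not at hc
      have := mul_pos hε hc
      linarith
    exact Prod.ext (abs_eq_zero.1 (le_antisymm c1 (abs_nonneg _)))
      (abs_eq_zero.1 (le_antisymm c2 (abs_nonneg _)))
  rcases g1.eq_or_lt with rfl | p1
  · rw [zero h1]
    simp [cr_eq]
  rcases g2.eq_or_lt with rfl | p2
  · rw [zero h2]
    simp [cr_eq]
  have a1 := smul_mem_Pol p1 h1
  have a2 := smul_mem_Pol p2 h2
  have e : cr ((1 / w1) • n1) ((1 / w2) • n2) = cr n1 n2 / (w1 * w2) := by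
    simp only [cr_eq, Prod.smul_fst, Prod.smul_snd, smul_eq_mul]
    field_simp
  have e' : cr ((1 / w2) • n2) ((1 / w1) • n1) = -cr n1 n2 / (w1 * w2) := by
    simp only [cr_eq, Prod.smul_fst, Prod.smul_snd, smul_eq_mul]
    field_simp
    ring
  have b1 := hall _ a1 _ a2
  have b2 := hall _ a2 _ a1
  rw [e, div_le_iff₀ (mul_pos p1 p2)] at b1
  rw [e', div_le_iff₀ (mul_pos p1 p2)] at b2
  exact abs_le.2 ⟨by linarith, b1⟩

/-- cross points from minimality -/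
theorem cross_x {K : Set (ℝ × ℝ)} (hK : IsBody K) (hm : MinPar K)
    (x0 : ∀ z ∈ K, 0 ≤ z.1) (x1 : ∀ z ∈ K, z.1 ≤ 1) (y0 : ∀ z ∈ K, 0 ≤ z.2)
    (y1 : ∀ z ∈ K, z.2 ≤ 1) : ∃ d : ℝ, ((0 : ℝ), d) ∈ K ∧ ((1 : ℝ), d) ∈ K := by
  set D : Set (ℝ × ℝ) := (fun z : (ℝ × ℝ) × (ℝ × ℝ) => z.1 - z.2) '' (K ×ˢ K) with hD
  have hDc : IsCompact D := (hK.compact.prod hK.compact).image (by fun_prop)
  have hDconv : Convex ℝ D := by
    have h1 : Convex ℝ (K ×ˢ K) := hK.convex.prod hK.convex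
    have h2 := h1.linear_image (LinearMap.fst ℝ (ℝ × ℝ) (ℝ × ℝ) - LinearMap.snd ℝ (ℝ × ℝ) (ℝ × ℝ))
    exact h2
  by_cases hmem : ((1 : ℝ), (0 : ℝ)) ∈ D
  · obtain ⟨⟨p, q⟩, ⟨hp, hq⟩, e⟩ := hmem
    have e1 : p.1 - q.1 = 1 := congrArg Prod.fst e
    have e2 : p.2 - q.2 = 0 := congrArg Prod.snd e
    have hp' : p ∈ K := hp
    have hq' : q ∈ K := hq
    have h1 := x1 p hp'
    have h2 := x0 q hq'
    refine ⟨q.2, ?_, ?_⟩
    · have : ((0 : ℝ), q.2) = q := Prod.ext (show (0 : ℝ) = q.1 by linarith) rfl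
      rw [this]; exact hq'
    · have : ((1 : ℝ), q.2) = p :=
        Prod.ext (show (1 : ℝ) = p.1 by linarith) (show q.2 = p.2 by linarith)
      rw [this]; exact hp'
  · exfalso
    obtain ⟨f, u, hf, hu⟩ := geometric_hahn_banach_closed_point hDconv hDc.isClosed hmem
    set n : ℝ × ℝ := (f (1, 0), f (0, 1)) with hn
    have hfd : ∀ z : ℝ × ℝ, f z = dt n z := by
      intro z
      have e : z = z.1 • ((1 : ℝ), (0 : ℝ)) + z.2 • ((0 : ℝ), (1 : ℝ)) := by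
        ext <;> simp
      calc f z = f (z.1 • ((1 : ℝ), (0 : ℝ)) + z.2 • ((0 : ℝ), (1 : ℝ))) := by rw [← e]
        _ = z.1 * f (1, 0) + z.2 * f (0, 1) := by
          rw [map_add, map_smul, map_smul, smul_eq_mul, smul_eq_mul]
        _ = dt n z := by rw [dt_eq, hn]; ring
    have w1 : Wd K n u := by
      intro p hp q hq
      rw [← hfd]
      exact (hf _ ⟨(p, q), ⟨hp, hq⟩, rfl⟩).le
    have w2 : Wd K (0, 1) 1 := by
      intro p hp q hq
      simp only [dt_eq, Prod.fst_sub, Prod.snd_sub]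
      linarith [y1 p hp, y0 q hq]
    have := hm _ _ _ _ w1 w2
    have e : cr n (0, 1) = f (1, 0) := by
      rw [cr_eq, hn]; ring
    rw [e] at this
    have := le_abs_self (f (1, 0))
    linarith

theorem Wd_swap {K : Set (ℝ × ℝ)} {n : ℝ × ℝ} {w : ℝ} :
    Wd (Prod.swap '' K) n w ↔ Wd K n.swap w := by
  constructor
  · intro h p hp q hq
    have := h _ ⟨p, hp, rfl⟩ _ ⟨q, hq, rfl⟩
    simp only [dt_eq, Prod.fst_sub, Prod.snd_sub, Prod.fst_swap, Prod.snd_swap] at this ⊢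
    linarith
  · rintro h _ ⟨p, hp, rfl⟩ _ ⟨q, hq, rfl⟩
    have := h p hp q hq
    simp only [dt_eq, Prod.fst_sub, Prod.snd_sub, Prod.fst_swap, Prod.snd_swap] at this ⊢
    linarith

theorem MinPar.swap {K : Set (ℝ × ℝ)} (h : MinPar K) : MinPar (Prod.swap '' K) := by
  intro n1 n2 w1 w2 h1 h2
  have := h _ _ _ _ (Wd_swap.1 h1) (Wd_swap.1 h2)
  have e : cr n1.swap n2.swap = -cr n1 n2 := by
    simp only [cr_eq, Prod.fst_swap, Prod.snd_swap]; ring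
  rwa [e, abs_neg] at this

theorem body_swap {K : Set (ℝ × ℝ)} (hK : IsBody K) : IsBody (Prod.swap '' K) := by
  have e : Prod.swap '' K = (LinearEquiv.prodComm ℝ ℝ ℝ).toAffineEquiv '' K := rfl
  rw [e]
  exact body_image hK _

theorem exists_MPar {K : Set (ℝ × ℝ)} (hK : IsBody K) :
    ∃ (L : (ℝ × ℝ) ≃ₗ[ℝ] (ℝ × ℝ)) (e : ℝ × ℝ), ∃ c d, MPar (affE L e '' K) c d := by
  obtain ⟨m1, hm1, m2, hm2, hM, hall⟩ := exists_maxPol hK
  set M := cr m1 m2 with hMd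
  have hMe : M = m1.1 * m2.2 - m1.2 * m2.1 := rfl
  have hne : K.Nonempty := hK.interior_nonempty.mono interior_subset
  set A : Matrix (Fin 2) (Fin 2) ℝ := !![m1.1, m1.2; m2.1, m2.2] with hA
  set L0 : (ℝ × ℝ) →ₗ[ℝ] (ℝ × ℝ) :=
    Matrix.toLin (Module.Basis.finTwoProd ℝ) (Module.Basis.finTwoProd ℝ) A with hL0
  have hL0a : ∀ x : ℝ × ℝ, L0 x = (dt m1 x, dt m2 x) := by
    intro x
    rw [hL0, hA, Matrix.toLin_finTwoProd_apply]
    rfl
  have hdet : LinearMap.det L0 = M := by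
    rw [hL0, LinearMap.det_toLin, hA, Matrix.det_fin_two_of]
    rfl
  have hdet0 : LinearMap.det L0 ≠ 0 := by rw [hdet]; exact hM.ne'
  set L : (ℝ × ℝ) ≃ₗ[ℝ] (ℝ × ℝ) := L0.equivOfDetNeZero hdet0 with hL
  have hLa : ∀ x, L x = (dt m1 x, dt m2 x) := fun x => hL0a x
  have hcd : ∀ m : ℝ × ℝ, Continuous fun z => dt m z := by
    intro m; unfold dt; fun_prop
  obtain ⟨q1, hq1, hq1m⟩ := hK.compact.exists_isMinOn hne (hcd m1).continuousOn
  obtain ⟨q2, hq2, hq2m⟩ := hK.compact.exists_isMinOn hne (hcd m2).continuousOn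
  have hmin1 : ∀ z ∈ K, dt m1 q1 ≤ dt m1 z := fun z hz => hq1m hz
  have hmin2 : ∀ z ∈ K, dt m2 q2 ≤ dt m2 z := fun z hz => hq2m hz
  set e : ℝ × ℝ := L.symm (dt m1 q1, dt m2 q2) with he
  have hE : ∀ z, affE L e z = (dt m1 z - dt m1 q1, dt m2 z - dt m2 q2) := by
    intro z
    rw [affE_apply, map_sub, he, LinearEquiv.apply_symm_apply, hLa]
    rfl
  have hsub : ∀ m p q : ℝ × ℝ, dt m (p - q) = dt m p - dt m q := by
    intro m p q
    simp only [dt_eq, Prod.fst_sub, Prod.snd_sub]; ring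
  have hbody : IsBody (affE L e '' K) := body_image hK _
  have bx0 : ∀ z ∈ affE L e '' K, 0 ≤ z.1 := by
    rintro _ ⟨z, hz, rfl⟩
    rw [hE]
    have := hmin1 z hz
    show 0 ≤ dt m1 z - dt m1 q1
    linarith
  have by0 : ∀ z ∈ affE L e '' K, 0 ≤ z.2 := by
    rintro _ ⟨z, hz, rfl⟩
    rw [hE]
    have := hmin2 z hz
    show 0 ≤ dt m2 z - dt m2 q2
    linarith
  have bx1 : ∀ z ∈ affE L e '' K, z.1 ≤ 1 := by
    rintro _ ⟨z, hz, rfl⟩
    rw [hE]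
    have := hm1 z hz q1 hq1
    rw [hsub] at this
    exact this
  have by1 : ∀ z ∈ affE L e '' K, z.2 ≤ 1 := by
    rintro _ ⟨z, hz, rfl⟩
    rw [hE]
    have := hm2 z hz q2 hq2
    rw [hsub] at this
    exact this
  have hmini : MinPar (affE L e '' K) := by
    intro n1 n2 w1 w2 h1 h2
    have pull : ∀ {n : ℝ × ℝ} {w : ℝ}, Wd (affE L e '' K) n w →
        Wd K (n.1 * m1.1 + n.2 * m2.1, n.1 * m1.2 + n.2 * m2.2) w := by
      intro n w h p hp q hq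
      have := h _ ⟨p, hp, rfl⟩ _ ⟨q, hq, rfl⟩
      rw [hE, hE] at this
      simp only [dt_eq, Prod.fst_sub, Prod.snd_sub] at this ⊢
      linarith
    have k := Wd.cr_le hK hM.le hall (pull h1) (pull h2)
    have e : cr (n1.1 * m1.1 + n1.2 * m2.1, n1.1 * m1.2 + n1.2 * m2.2)
        (n2.1 * m1.1 + n2.2 * m2.1, n2.1 * m1.2 + n2.2 * m2.2) = M * cr n1 n2 := by
      rw [hMe]
      simp only [cr_eq]
      ring
    rw [e, abs_mul, abs_of_pos hM] at k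
    exact le_of_mul_le_mul_left k hM
  obtain ⟨d, hd0, hd1⟩ := cross_x hbody hmini bx0 bx1 by0 by1
  obtain ⟨c, hc0, hc1⟩ := cross_x (body_swap hbody) hmini.swap
    (by rintro _ ⟨z, hz, rfl⟩; exact by0 z hz) (by rintro _ ⟨z, hz, rfl⟩; exact by1 z hz)
    (by rintro _ ⟨z, hz, rfl⟩; exact bx0 z hz) (by rintro _ ⟨z, hz, rfl⟩; exact bx1 z hz)
  have unsw : ∀ {x y : ℝ}, (x, y) ∈ Prod.swap '' (affE L e '' K) → (y, x) ∈ affE L e '' K := by
    rintro x y ⟨z, hz, hzz⟩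
    have : z = (y, x) := by
      rw [← Prod.swap_swap z, hzz]; rfl
    rw [← this]; exact hz
  exact ⟨L, e, c, d, hbody, bx0, bx1, by0, by1, unsw hc0, unsw hc1, hd0, hd1, hmini⟩

end Pool.Agent.Helper39.MP
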