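import Pool.Agent.Helper39.MP.Frame
import Pool.Agent.Helper8.PH5.CaseC

/-!
# The frame of the minimal circumscribed parallelogram: symmetries and reduction (MP_8bf717_co)
-/

set_option autoImplicit false

open MeasureTheory Set

namespace Pool.Agent.Helper39.MP

open Pool.Agent.Helper27.PHU Pool.Agent.Helper37.PH Pool.Agent.Helper61.PH Pool.Agent.Helper83.PHU

/-- linear consequences of the minimality -/
theorem MPar.lin {K : Set (ℝ × ℝ)} {c d : ℝ} (h : MPar K c d) {n1 n2 : ℝ × ℝ} {w1 w2 θ : ℝ}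
    (h1 : Wd K n1 w1) (h2 : Wd K n2 w2) (hθ : 0 < θ) :
    2 * Real.sqrt |cr n1 n2| ≤ θ * w1 + w2 / θ := by
  have hne : K.Nonempty := ⟨_, h.mB⟩
  have g1 := h1.nonneg hne
  have g2 := h2.nonneg hne
  have hm := h.mini n1 n2 w1 w2 h1 h2
  have h0 : 0 ≤ θ * w1 + w2 / θ := by positivity
  have e : (θ * w1) * (w2 / θ) = w1 * w2 := by field_simp
  have h3 : |cr n1 n2| ≤ ((θ * w1 + w2 / θ) / 2) ^ 2 := by
    nlinarith [sq_nonneg (θ * w1 - w2 / θ)]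
  have h4 : Real.sqrt |cr n1 n2| ≤ (θ * w1 + w2 / θ) / 2 := Real.sqrt_le_iff.2 ⟨by linarith, h3⟩
  linarith

/-- the same with a given lower bound for the cross product -/
theorem MPar.lin' {K : Set (ℝ × ℝ)} {c d : ℝ} (h : MPar K c d) {n1 n2 : ℝ × ℝ} {w1 w2 θ s : ℝ}
    (h1 : Wd K n1 w1) (h2 : Wd K n2 w2) (hθ : 0 < θ) (hs : s ^ 2 ≤ |cr n1 n2|) :
    2 * s ≤ θ * w1 + w2 / θ := by
  have := h.lin h1 h2 hθ
  have h5 : s ≤ Real.sqrt |cr n1 n2| := Real.le_sqrt_of_sq_le hs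
  linarith

theorem Wd_flipX {K : Set (ℝ × ℝ)} {n : ℝ × ℝ} {w : ℝ} (h : Wd (flipX K) n w) :
    Wd K (-n.1, n.2) w := by
  intro p hp q hq
  have := h _ ⟨p, hp, rfl⟩ _ ⟨q, hq, rfl⟩
  simp only [dt_eq, Prod.fst_sub, Prod.snd_sub] at this ⊢
  linarith

theorem Wd_flipY {K : Set (ℝ × ℝ)} {n : ℝ × ℝ} {w : ℝ} (h : Wd (flipY K) n w) :
    Wd K (n.1, -n.2) w := by
  intro p hp q hq
  have := h _ ⟨p, hp, rfl⟩ _ ⟨q, hq, rfl⟩
  simp only [dt_eq, Prod.fst_sub, Prod.snd_sub] at this ⊢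
  linarith

theorem MPar.flipX {K : Set (ℝ × ℝ)} {c d : ℝ} (h : MPar K c d) : MPar (flipX K) (1 - c) d := by
  refine ⟨?_, ?_, ?_, ?_, ?_, ?_, ?_, ?_, ?_, ?_⟩
  · rw [flipX_eq]; exact body_image h.body _
  · rintro _ ⟨z, hz, rfl⟩
    show 0 ≤ 1 - z.1
    linarith [h.x1 z hz]
  · rintro _ ⟨z, hz, rfl⟩
    show 1 - z.1 ≤ 1
    linarith [h.x0 z hz]
  · rintro _ ⟨z, hz, rfl⟩; exact h.y0 z hz
  · rintro _ ⟨z, hz, rfl⟩; exact h.y1 z hz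
  · exact ⟨_, h.mB, rfl⟩
  · exact ⟨_, h.mT, rfl⟩
  · exact ⟨_, h.mR, by simp⟩
  · exact ⟨_, h.mL, by simp⟩
  · intro n1 n2 w1 w2 h1 h2
    have := h.mini _ _ _ _ (Wd_flipX h1) (Wd_flipX h2)
    have e : cr (-n1.1, n1.2) (-n2.1, n2.2) = -cr n1 n2 := by
      simp only [cr_eq]; ring
    rwa [e, abs_neg] at this

theorem MPar.flipY {K : Set (ℝ × ℝ)} {c d : ℝ} (h : MPar K c d) : MPar (flipY K) c (1 - d) := by
  refine ⟨?_, ?_, ?_, ?_, ?_, ?_, ?_, ?_, ?_, ?_⟩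
  · rw [flipY_eq]; exact body_image h.body _
  · rintro _ ⟨z, hz, rfl⟩; exact h.x0 z hz
  · rintro _ ⟨z, hz, rfl⟩; exact h.x1 z hz
  · rintro _ ⟨z, hz, rfl⟩
    show 0 ≤ 1 - z.2
    linarith [h.y1 z hz]
  · rintro _ ⟨z, hz, rfl⟩
    show 1 - z.2 ≤ 1
    linarith [h.y0 z hz]
  · exact ⟨_, h.mT, by simp⟩
  · exact ⟨_, h.mB, by simp⟩
  · exact ⟨_, h.mL, rfl⟩
  · exact ⟨_, h.mR, rfl⟩
  · intro n1 n2 w1 w2 h1 h2
    have := h.mini _ _ _ _ (Wd_flipY h1) (Wd_flipY h2)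
    have e : cr (n1.1, -n1.2) (n2.1, -n2.2) = -cr n1 n2 := by
      simp only [cr_eq]; ring
    rwa [e, abs_neg] at this

theorem MPar.swap {K : Set (ℝ × ℝ)} {c d : ℝ} (h : MPar K c d) :
    MPar (Prod.swap '' K) d c := by
  refine ⟨body_swap h.body, ?_, ?_, ?_, ?_, ?_, ?_, ?_, ?_, h.mini.swap⟩
  · rintro _ ⟨z, hz, rfl⟩; exact h.y0 z hz
  · rintro _ ⟨z, hz, rfl⟩; exact h.y1 z hz
  · rintro _ ⟨z, hz, rfl⟩; exact h.x0 z hz
  · rintro _ ⟨z, hz, rfl⟩; exact h.x1 z hz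
  · exact ⟨_, h.mL, rfl⟩
  · exact ⟨_, h.mR, rfl⟩
  · exact ⟨_, h.mB, rfl⟩
  · exact ⟨_, h.mT, rfl⟩

theorem MPar.c_mem {K : Set (ℝ × ℝ)} {c d : ℝ} (h : MPar K c d) : 0 ≤ c ∧ c ≤ 1 :=
  ⟨h.x0 _ h.mB, h.x1 _ h.mB⟩

theorem MPar.d_mem {K : Set (ℝ × ℝ)} {c d : ℝ} (h : MPar K c d) : 0 ≤ d ∧ d ≤ 1 :=
  ⟨h.y0 _ h.mL, h.y1 _ h.mL⟩

/-- Reduction of an upper bound for `H` to normalised bodies, `1/2 ≤ c ≤ d`. -/
theorem H_le_of_MPar {C : ℝ} (hC : 0 ≤ C)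
    (h : ∀ (K : Set (ℝ × ℝ)) (c d : ℝ), MPar K c d → 1 / 2 ≤ c → c ≤ d →
      Cov K (C * (volume K).toReal)) : H ≤ ENNReal.ofReal C := by
  apply Pool.Agent.Helper39.P5.H_le_of hC (Q := fun K => ∃ c d, MPar K c d)
  · intro K hS
    exact exists_MPar hS.body
  rintro K ⟨c, d, hN⟩
  -- order
  have s1 : ∀ (K : Set (ℝ × ℝ)) (c d : ℝ), MPar K c d → 1 / 2 ≤ c → 1 / 2 ≤ d →
      Cov K (C * (volume K).toReal) := by
    intro K c d hN hc hd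
    rcases le_total c d with hcd | hcd
    · exact h K c d hN hc hcd
    · have := h _ _ _ hN.swap hd hcd
      rw [Pool.Agent.Helper8.PH5.vol_swap] at this
      exact Cov_swap this
  have s2 : ∀ (K : Set (ℝ × ℝ)) (c d : ℝ), MPar K c d → 1 / 2 ≤ c →
      Cov K (C * (volume K).toReal) := by
    intro K c d hN hc
    rcases le_total (1 / 2) d with hd | hd
    · exact s1 K c d hN hc hd
    · have := s1 _ _ _ hN.flipY hc (by linarith)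
      rw [volume_flipY] at this
      exact Cov_flipY this
  rcases le_total (1 / 2) c with hc | hc
  · exact s2 K c d hN hc
  · have := s2 _ _ _ hN.flipX (by linarith)
    rw [volume_flipX] at this
    exact Cov_flipX this

end Pool.Agent.Helper39.MP
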